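import Pool.Agent.W719.AX.Dbl

/-!
Project AX: the expansion of a positive sequence.
-/

set_option autoImplicit false

namespace Pool.Agent.W922.AX

open Finset Filter Topology Metric
open Pool.Agent.W719.AX

theorem le_zero_of_div {x C : ℝ} (h : ∀ᶠ N : ℕ in atTop, x ≤ C / (N : ℝ)) : x ≤ 0 :=
  ge_of_tendsto (tendsto_const_div_atTop_nhds_zero_nat C) h

/-- the coefficients of the expansion of a real sequence are real -/
theorem coeff_real (b : ℕ → ℂ) (z : ℕ → ℂ) (hb : ∀ᶠ N : ℕ in atTop, (b N).im = 0)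
    (h : ∀ K : ℕ, ∃ C : ℝ, ∀ᶠ N : ℕ in atTop,
      ‖b N - ∑ k ∈ range K, z k / (N : ℂ) ^ k‖ ≤ C / (N : ℝ) ^ K) : ∀ k, (z k).im = 0 := by
  intro k
  induction k using Nat.strong_induction_on with
  | _ k ih =>
    obtain ⟨C, hC⟩ := h (k + 1)
    have h1 : |(z k).im| ≤ 0 := by
      apply le_zero_of_div (C := C)
      filter_upwards [hC, hb, eventually_gt_atTop 0] with N hN hbN hN0
      have hNpos : (0 : ℝ) < N := by exact_mod_cast hN0
      have him : ∀ j, (z j / (N : ℂ) ^ j).im = (z j).im / (N : ℝ) ^ j := by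
        intro j
        rw [← Complex.ofReal_natCast, ← Complex.ofReal_pow, Complex.div_ofReal_im]
      have h2 : (b N - ∑ j ∈ range (k + 1), z j / (N : ℂ) ^ j).im = -((z k).im / (N : ℝ) ^ k) := by
        rw [Finset.sum_range_succ, Complex.sub_im, Complex.add_im, Complex.im_sum, hbN, him]
        rw [Finset.sum_eq_zero (fun j hj => by
          rw [him, ih j (Finset.mem_range.1 hj), zero_div])]
        ring
      have h3 := (Complex.abs_im_le_norm _).trans hN
      rw [h2, abs_neg, abs_div, abs_of_pos (pow_pos hNpos k)] at h3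
      rw [div_le_iff₀ (pow_pos hNpos k)] at h3
      have e : C / (N : ℝ) ^ (k + 1) * (N : ℝ) ^ k = C / N := by
        rw [pow_succ]
        field_simp
      rw [e] at h3
      exact h3
    exact abs_eq_zero.1 (le_antisymm h1 (abs_nonneg _))

theorem pos : S_RAT → S_POS := by
  intro hR a v y hy0 hpos hexp
  obtain ⟨hne, hlim, -⟩ := hR a v y hy0 hexp
  -- the exponential of `v`
  have hshift : ∀ᶠ N : ℕ in atTop, ∃ r : ℝ, 0 ≤ r ∧ a (N + 1) = (-1) ^ (N + 1 - 1) * r :=
    (tendsto_add_atTop_nat 1).eventually hpos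
  have hratio : ∀ᶠ N : ℕ in atTop, (a (N + 1) / a N).im = 0 ∧ (a (N + 1) / a N).re ≤ 0 := by
    filter_upwards [hpos, hshift, eventually_gt_atTop 0] with N h1 h2 hN
    obtain ⟨r, hr, har⟩ := h1
    obtain ⟨s, hs, has⟩ := h2
    have hpw : ((-1 : ℂ)) ^ (N + 1 - 1) = -(-1) ^ (N - 1) := by
      obtain ⟨m, rfl⟩ : ∃ m, N = m + 1 := ⟨N - 1, by omega⟩
      simp [pow_succ]
    have e : a (N + 1) / a N = ((-(s / r) : ℝ) : ℂ) := by
      rw [har, has, hpw]
      have h0 : ((-1 : ℂ)) ^ (N - 1) ≠ 0 := pow_ne_zero _ (by norm_num)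
      push_cast
      rw [neg_mul, neg_div, mul_div_mul_left _ _ h0]
    rw [e]
    exact ⟨Complex.ofReal_im _, by
      rw [Complex.ofReal_re, neg_nonpos]
      exact div_nonneg hs hr⟩
  have him : (Complex.exp v).im = 0 := by
    have h1 : Tendsto (fun N : ℕ => (a (N + 1) / a N).im) atTop (𝓝 (Complex.exp v).im) :=
      (Complex.continuous_im.tendsto _).comp hlim
    have h2 : Tendsto (fun N : ℕ => (a (N + 1) / a N).im) atTop (𝓝 0) :=
      tendsto_const_nhds.congr' (by
        filter_upwards [hratio] with N h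
        exact h.1.symm)
    exact tendsto_nhds_unique h1 h2
  have hre : (Complex.exp v).re ≤ 0 := by
    have h1 : Tendsto (fun N : ℕ => (a (N + 1) / a N).re) atTop (𝓝 (Complex.exp v).re) :=
      (Complex.continuous_re.tendsto _).comp hlim
    exact le_of_tendsto h1 (by
      filter_upwards [hratio] with N h
      exact h.2)
  have hev : Complex.exp v = -((Real.exp v.re : ℝ) : ℂ) := by
    have h1 : Complex.exp v = (((Complex.exp v).re : ℝ) : ℂ) := by
      apply Complex.ext
      · rw [Complex.ofReal_re]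
      · rw [Complex.ofReal_im, him]
    have h2 : ‖Complex.exp v‖ = Real.exp v.re := Complex.norm_exp v
    rw [h1, Complex.norm_real, Real.norm_eq_abs, abs_of_nonpos hre] at h2
    rw [h1, ← h2]
    push_cast
    ring
  have hexpN : ∀ N : ℕ, Complex.exp (N * v) = (-1) ^ N * ((Real.exp (N * v.re) : ℝ) : ℂ) := by
    intro N
    rw [Complex.exp_nat_mul, hev, neg_pow, Real.exp_nat_mul]
    push_cast
    rfl
  -- the real sequence
  obtain ⟨b, hb⟩ : ∃ b : ℕ → ℂ, b = fun N =>
    (-1) ^ (N - 1) * a N / (((Real.sqrt N) ^ 3 * Real.exp (N * v.re) : ℝ) : ℂ) := ⟨_, rfl⟩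
  have hb1 : ∀ᶠ N : ℕ in atTop,
      b N = -(a N / (((Real.sqrt N) ^ 3 : ℝ) * Complex.exp (N * v))) := by
    filter_upwards [eventually_gt_atTop 0] with N hN
    have hpw : ((-1 : ℂ)) ^ N = -(-1) ^ (N - 1) := by
      obtain ⟨m, rfl⟩ : ∃ m, N = m + 1 := ⟨N - 1, by omega⟩
      simp [pow_succ]
    have h1 : ((-1 : ℂ)) ^ (N - 1) * (-1) ^ (N - 1) = 1 := by
      rw [← mul_pow]; simp
    have h0 : ((-1 : ℂ)) ^ (N - 1) ≠ 0 := pow_ne_zero _ (by norm_num)
    have hs : ((((Real.sqrt N) ^ 3 : ℝ)) : ℂ) ≠ 0 := by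
      rw [Complex.ofReal_ne_zero]
      positivity
    have he : ((Real.exp (N * v.re) : ℝ) : ℂ) ≠ 0 := by
      rw [Complex.ofReal_ne_zero]
      positivity
    rw [hb, hexpN, hpw]
    simp only
    rw [Complex.ofReal_mul]
    rw [div_eq_iff (mul_ne_zero hs he)]
    have h2 : ((-1 : ℂ)) ^ (N - 1) = 1 / (-1) ^ (N - 1) := by
      rw [eq_div_iff h0, h1]
    field_simp
    linear_combination a N * h1
  have hb2 : ∀ᶠ N : ℕ in atTop, (b N).im = 0 ∧ 0 ≤ (b N).re := by
    filter_upwards [hpos] with N hN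
    obtain ⟨r, hr, har⟩ := hN
    have h1 : ((-1 : ℂ)) ^ (N - 1) * (-1) ^ (N - 1) = 1 := by
      rw [← mul_pow]; simp
    have e : b N = ((r / ((Real.sqrt N) ^ 3 * Real.exp (N * v.re)) : ℝ) : ℂ) := by
      rw [hb]
      simp only
      rw [har, ← mul_assoc, h1, one_mul, ← Complex.ofReal_div]
    rw [e]
    exact ⟨Complex.ofReal_im _, by rw [Complex.ofReal_re]; positivity⟩
  have hbx : ∀ K : ℕ, ∃ C : ℝ, ∀ᶠ N : ℕ in atTop,
      ‖b N - ∑ k ∈ range K, (-y k) / (N : ℂ) ^ k‖ ≤ C / (N : ℝ) ^ K := by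
    intro K
    obtain ⟨C, hC⟩ := hexp K
    refine ⟨C, ?_⟩
    filter_upwards [hC, hb1] with N h1 h2
    have e : b N - ∑ k ∈ range K, (-y k) / (N : ℂ) ^ k
        = -(a N / (((Real.sqrt N) ^ 3 : ℝ) * Complex.exp (N * v)) -
          ∑ k ∈ range K, y k / (N : ℂ) ^ k) := by
      rw [h2]
      simp only [neg_div, Finset.sum_neg_distrib]
      ring
    rw [e, norm_neg]
    exact h1
  have hreal := coeff_real b (fun k => -y k) (hb2.mono (fun _ h => h.1)) hbx
  have hzr : ∀ k, (((-y k).re : ℝ) : ℂ) = -y k := by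
    intro k
    apply Complex.ext
    · rw [Complex.ofReal_re]
    · rw [Complex.ofReal_im]; exact (hreal k).symm
  refine ⟨fun k => (-y k).re, ?_, ?_⟩
  · have h0 : -(-y 0).re ≤ 0 := by
      obtain ⟨C, hC⟩ := hbx 1
      apply le_zero_of_div (C := C)
      filter_upwards [hC, hb2] with N h1 h2
      have h3 := (Complex.abs_re_le_norm _).trans h1
      simp only [Finset.sum_range_one, pow_zero, div_one, Complex.sub_re, pow_one] at h3
      have h4 := (abs_le.1 h3).2
      linarith [h2.2]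
    have h1 : (-y 0).re ≠ 0 := by
      intro h
      apply hy0
      have := hzr 0
      rw [h, Complex.ofReal_zero] at this
      exact neg_eq_zero.1 this.symm
    exact lt_of_le_of_ne (by linarith) (Ne.symm h1)
  · intro K
    obtain ⟨C, hC⟩ := hbx K
    refine ⟨C, ?_⟩
    filter_upwards [hC] with N h1
    rw [hb] at h1
    simp only [hzr]
    exact h1

end Pool.Agent.W922.AX
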